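import Mathlib
import Pool.Agent.Helper82.OS.Defs
import Pool.Agent.Helper82.OS.PPd
import Pool.Agent.Helper82.OS.voldens
import Pool.Agent.Helper82.OS.vol_le
import Pool.Agent.Helper82.OS.sgval
import Pool.Agent.Helper971.OS.R_lower
import Pool.Agent.Helper971.OS.R_value
import Pool.Agent.Helper82.OS.strict24
import Pool.Agent.H248.UB.Approx

/-!
# The infimum of the volumes of smooth unit vector fields on odd spheres of dimension at least 49

For every `m ≥ 24` the infimum of `Vol V` over all smooth unit vector fields `V` on `S^{2m+1}` is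
`16^m / binom(4m, 2m) * area(S^{2m+1})`, the volume of the parallel transport (Pedersen) fields with
one singularity, and no smooth unit vector field attains it.

Joint work of helper82 (calibration argument, reduction to a pointwise inequality, the pointwise
inequality and its equality case for `m ≥ 24`), helper971 (the pointwise inequality for large `m`,
equality case of the integral inequality), helper734 (no smooth unit field is umbilic on the
orthogonal complement of itself), helper248 (approximation of the Pedersen fields by smooth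
fields).
-/

open MeasureTheory

namespace Pool.Agent.Results.MP_e09f5c_gt.InfimumValue

/-- The Euclidean space `ℝ^{2m+2}`. -/
abbrev En (m : ℕ) : Type := EuclideanSpace ℝ (Fin (2 * m + 2))

/-- The unit sphere `S^{2m+1}` of `ℝ^{2m+2}`. -/
abbrev Sph (m : ℕ) : Set (En m) := Metric.sphere (0 : En m) 1

section General
variable {E : Type} [NormedAddCommGroup E] [InnerProductSpace ℝ E]

/-- For `‖x‖ = 1`: the orthogonal projection `y ↦ y - ⟪x, y⟫ x` of `E` onto `x^⊥`. -/
noncomputable def proj (x : E) : E →L[ℝ] E :=
  ContinuousLinearMap.id ℝ E - (innerSL ℝ x).smulRight x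

/-- The covariant derivative `∇V` at a point `x` of the unit sphere of `E`, that is
`proj ∘ DV(x) ∘ proj` (an endomorphism of `x^⊥`, extended by `0` on `ℝ x`). -/
noncomputable def nabla (V : E → E) (x : E) : E →L[ℝ] E :=
  (proj x).comp ((fderiv ℝ V x).comp (proj x))

/-- The operator `Id + (∇V)ᵗ ∘ ∇V`. -/
noncomputable def gramOp [CompleteSpace E] (V : E → E) (x : E) : E →L[ℝ] E :=
  ContinuousLinearMap.id ℝ E + (ContinuousLinearMap.adjoint (nabla V x)).comp (nabla V x)

/-- The volume density `√det(Id + (∇V)ᵗ ∘ ∇V)`. -/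
noncomputable def density [CompleteSpace E] (V : E → E) (x : E) : ℝ :=
  Real.sqrt (LinearMap.det (gramOp V x).toLinearMap)

/-- Smooth unit vector fields on the unit sphere of `E`, given by smooth maps `E → E`. -/
structure IsUnitField (V : E → E) : Prop where
  smooth : ContDiff ℝ (⊤ : ℕ∞) V
  tangent : ∀ x : E, ‖x‖ = 1 → inner ℝ x (V x) = 0
  unit : ∀ x : E, ‖x‖ = 1 → ‖V x‖ = 1

/-- Pedersen's field: parallel transport of `b ⟂ a` along great circles from `a`. -/
noncomputable def P (a b : E) (x : E) : E :=
  b - (inner ℝ b x / (1 + inner ℝ x a)) • (x + a)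

/-- `a, b` are orthonormal. -/
def OnPair (a b : E) : Prop := ‖a‖ = 1 ∧ ‖b‖ = 1 ∧ inner ℝ a b = 0

end General

/-- The surface measure of `S^{2m+1}`. -/
noncomputable def surf (m : ℕ) : Measure (Sph m) := (volume : Measure (En m)).toSphere

/-- The density of `V` is integrable on the sphere. -/
def FiniteVol {m : ℕ} (V : En m → En m) : Prop :=
  Integrable (fun x : Sph m => density V x) (surf m)

/-- The volume of a vector field on the unit sphere: integral of the density with respect to the
surface measure of `S^{2m+1}`. -/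
noncomputable def Vol {m : ℕ} (V : En m → En m) : ℝ := ∫ x : Sph m, density V x ∂(surf m)

/-- The area of `S^{2m+1}`. -/
noncomputable def area (m : ℕ) : ℝ := (surf m Set.univ).toReal

/-- The number `16^m / binom(4m, 2m)`. -/
noncomputable def cst (m : ℕ) : ℝ := 16 ^ m / ((4 * m).choose (2 * m) : ℝ)

theorem density_eq {m : ℕ} (V : En m → En m) (x : En m) :
    density V x = Pool.Agent.Helper82.OS.dens V x :=
  Pool.Agent.Helper82.OS.voldens V x

theorem lint_eq {m : ℕ} (V : En m → En m)
    (hint : Integrable (fun x : Sph m => density V (x : En m))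
      ((volume : Measure (En m)).toSphere)) :
    ∫⁻ x : Sph m, ENNReal.ofReal (Pool.Agent.Helper82.OS.dens V (x : En m))
        ∂((volume : Measure (En m)).toSphere) = ENNReal.ofReal (Vol V) := by
  have h1 : ENNReal.ofReal (∫ x : Sph m, density V (x : En m)
      ∂((volume : Measure (En m)).toSphere)) =
      ∫⁻ x : Sph m, ENNReal.ofReal (density V (x : En m))
        ∂((volume : Measure (En m)).toSphere) :=
    ofReal_integral_eq_lintegral_ofReal hint
      (Filter.Eventually.of_forall fun x => Real.sqrt_nonneg _)
  refine Eq.trans ?_ h1.symm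
  refine lintegral_congr fun x => ?_
  exact congrArg ENNReal.ofReal (density_eq V x).symm

/-- A smooth unit field has an integrable density. -/
theorem finiteVol {m : ℕ} {V : En m → En m} (hV : IsUnitField V) : FiniteVol V := by
  have hcont : Continuous (Pool.Agent.Helper82.OS.dens V) :=
    Pool.Agent.Helper82.OS.vol_le_dens_cont_vol_lex V hV.smooth
  have hcont' : Continuous (fun x : Sph m => density V (x : En m)) := by
    have : (fun x : Sph m => density V (x : En m)) =
        fun x : Sph m => Pool.Agent.Helper82.OS.dens V (x : En m) := by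
      funext x; exact density_eq V x
    rw [this]
    exact hcont.comp continuous_subtype_val
  obtain ⟨C, hC⟩ := (isCompact_univ (X := Sph m)).exists_bound_of_continuousOn
    hcont'.continuousOn
  have hfin : IsFiniteMeasure ((volume : Measure (En m)).toSphere) := inferInstance
  have hint : Integrable (fun x : Sph m => density V (x : En m))
      ((volume : Measure (En m)).toSphere) :=
    Integrable.of_bound hcont'.aestronglyMeasurable C
      (Filter.Eventually.of_forall fun x => hC x (Set.mem_univ x))
  exact hint

theorem sg_ne_zero (m : ℕ) : Pool.Agent.Helper82.OS.sg (2 * m + 2) Set.univ ≠ 0 := by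
  rw [Pool.Agent.Helper82.OS.sgval (by omega : 1 ≤ 2 * m + 2), ne_eq,
    ENNReal.ofReal_eq_zero, not_le]
  have hG : 0 < Real.Gamma (((2 * m + 2 : ℕ) : ℝ) / 2) := Real.Gamma_pos_of_pos (by positivity)
  positivity

theorem sg_ne_top (m : ℕ) : Pool.Agent.Helper82.OS.sg (2 * m + 2) Set.univ ≠ ⊤ := by
  have hfin : IsFiniteMeasure ((volume : Measure (En m)).toSphere) := inferInstance
  exact measure_ne_top _ _

theorem cst_area (m : ℕ) : (ENNReal.ofReal ((16 : ℝ) ^ m / ((4 * m).choose (2 * m) : ℝ)) *
      Pool.Agent.Helper82.OS.sg (2 * m + 2) Set.univ).toReal = cst m * area m := by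
  rw [ENNReal.toReal_mul, ENNReal.toReal_ofReal (by positivity)]
  rfl

/-- Lower bound (strict). -/
theorem lower (m : ℕ) (hm : 24 ≤ m) (V : En m → En m) (hV : IsUnitField V) :
    cst m * area m < Vol V := by
  have hUT : Pool.Agent.Helper82.OS.UT V := ⟨hV.smooth, hV.tangent, hV.unit⟩
  have hint : Integrable (fun x : Sph m => density V (x : En m))
      ((volume : Measure (En m)).toSphere) := finiteVol hV
  have h1 := Pool.Agent.Helper82.OS.osr_strict24 hm hUT
  have h3 : 0 ≤ Vol V := integral_nonneg fun x => Real.sqrt_nonneg _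
  have h2 := lint_eq V hint
  have h5 := h1.trans_le (le_of_eq h2)
  have h4 := (ENNReal.toReal_lt_toReal (ne_top_of_lt h5) ENNReal.ofReal_ne_top).mpr h5
  rw [ENNReal.toReal_ofReal h3] at h4
  exact (le_of_eq (cst_area m).symm).trans_lt h4

/-- Upper bound. -/
theorem upper (m : ℕ) (hm : 1 ≤ m) (η : ℝ) (hη : 0 < η) :
    ∃ V : En m → En m, IsUnitField V ∧ Vol V ≤ cst m * area m + η := by
  obtain ⟨V, hV, h⟩ := Pool.Agent.H248.UB.approx hm η hη
  have hV' : IsUnitField V := ⟨hV.sm, hV.tan, hV.unit⟩
  refine ⟨V, hV', ?_⟩
  have ha : ‖(EuclideanSpace.single 0 1 : En m)‖ = 1 := by simp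
  have hb : ‖(EuclideanSpace.single 1 1 : En m)‖ = 1 := by simp
  have hab : inner ℝ (EuclideanSpace.single 0 1 : En m) (EuclideanSpace.single 1 1 : En m) = 0 := by
    rw [EuclideanSpace.inner_single_left]
    simp
  obtain ⟨h1, -⟩ := Pool.Agent.Helper82.OS.osr_value hm (EuclideanSpace.single 0 1)
    (EuclideanSpace.single 1 1) ha hb hab
  rw [h1] at h
  have hint : Integrable (fun x : Sph m => density V (x : En m))
      ((volume : Measure (En m)).toSphere) := finiteVol hV'
  have h2 := lint_eq V hint
  have h5 := (le_of_eq h2.symm).trans h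
  have hc : (0 : ℝ) ≤ cst m * area m := by
    rw [← cst_area]; exact ENNReal.toReal_nonneg
  have h6 : ENNReal.ofReal ((16 : ℝ) ^ m / ((4 * m).choose (2 * m) : ℝ)) *
      Pool.Agent.Helper82.OS.sg (2 * m + 2) Set.univ = ENNReal.ofReal (cst m * area m) := by
    rw [← cst_area, ENNReal.ofReal_toReal]
    exact ENNReal.mul_ne_top ENNReal.ofReal_ne_top (sg_ne_top m)
  rw [h6, ← ENNReal.ofReal_add hc hη.le] at h5
  exact (ENNReal.ofReal_le_ofReal_iff (by positivity)).mp h5

/-- The volume of the Pedersen fields. -/
theorem value (m : ℕ) (hm1 : 1 ≤ m) (a b : En m) (hp : OnPair a b) :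
    FiniteVol (P a b) ∧ Vol (P a b) = cst m * area m := by
  obtain ⟨ha, hb, hab⟩ := hp
  obtain ⟨h1, h2⟩ := Pool.Agent.Helper82.OS.osr_value hm1 a b ha hb hab
  have hfun : (fun x : Sph m => Pool.Agent.Helper82.OS.dens
      (Pool.Agent.Helper82.OS.PP a b) (x : En m)) =
      fun x : Sph m => density (P a b) (x : En m) := by
    funext x; exact (density_eq (P a b) x).symm
  have h2' : AEStronglyMeasurable (fun x : Sph m => density (P a b) (x : En m))
      ((volume : Measure (En m)).toSphere) := hfun ▸ h2
  have h1' : ∫⁻ x : Sph m, ENNReal.ofReal (density (P a b) (x : En m))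
      ∂((volume : Measure (En m)).toSphere) =
      ENNReal.ofReal ((16 : ℝ) ^ m / ((4 * m).choose (2 * m) : ℝ)) *
        Pool.Agent.Helper82.OS.sg (2 * m + 2) Set.univ := by
    refine Eq.trans ?_ h1
    refine lintegral_congr fun x => ?_
    exact congrArg ENNReal.ofReal (density_eq (P a b) x)
  have hint : Integrable (fun x : Sph m => density (P a b) (x : En m))
      ((volume : Measure (En m)).toSphere) := by
    refine ⟨h2', ?_⟩
    have h0 : ∀ x : Sph m, 0 ≤ density (P a b) (x : En m) := fun x => Real.sqrt_nonneg _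
    rw [hasFiniteIntegral_iff_ofReal (Filter.Eventually.of_forall h0)]
    rw [h1']
    exact ENNReal.mul_lt_top ENNReal.ofReal_lt_top (sg_ne_top m).lt_top
  refine ⟨hint, ?_⟩
  have h6 : Vol (P a b) = (∫⁻ x : Sph m, ENNReal.ofReal (density (P a b) (x : En m))
      ∂((volume : Measure (En m)).toSphere)).toReal :=
    integral_eq_lintegral_of_nonneg_ae
      (Filter.Eventually.of_forall fun x => Real.sqrt_nonneg _) h2'
  exact h6.trans ((congrArg ENNReal.toReal h1').trans (cst_area m))

/-- For every `m ≥ 24`, with `cst m = 16^m / binom(4m, 2m)`: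
(1) the area of `S^{2m+1}` is positive;
(2) `cst m * area(S^{2m+1})` is the infimum (greatest lower bound) of the volumes of the smooth unit
vector fields on `S^{2m+1}`;
(3) no smooth unit vector field attains it: every smooth unit vector field `V` on `S^{2m+1}` has an
integrable density and `Vol V > cst m * area(S^{2m+1})`;
(4) every parallel transport field `P^{a,b}` has an integrable density and
`Vol P^{a,b} = cst m * area(S^{2m+1})`. -/
theorem result (m : ℕ) (hm : 24 ≤ m) :
    0 < area m ∧
    IsGLB {t : ℝ | ∃ V : En m → En m, IsUnitField V ∧ Vol V = t} (cst m * area m) ∧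
    (∀ V : En m → En m, IsUnitField V → FiniteVol V ∧ cst m * area m < Vol V) ∧
    (∀ a b : En m, OnPair a b → FiniteVol (P a b) ∧ Vol (P a b) = cst m * area m) := by
  refine ⟨ENNReal.toReal_pos (sg_ne_zero m) (sg_ne_top m), ⟨?_, ?_⟩, ?_, ?_⟩
  · rintro t ⟨V, hV, rfl⟩
    exact (lower m hm V hV).le
  · intro t ht
    refine le_of_forall_pos_le_add fun η hη => ?_
    obtain ⟨V, hV, h⟩ := upper m (by omega) η hη
    exact (ht ⟨V, hV, rfl⟩).trans h
  · intro V hV
    exact ⟨finiteVol hV, lower m hm V hV⟩
  · intro a b hp
    exact value m (by omega) a b hp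

end Pool.Agent.Results.MP_e09f5c_gt.InfimumValue
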